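import Pool.Agent.Q187.Div.QV

/-!
# MP_d5c55f_an: the square function of divisor-weighted ergodic averages

The square function inequality holds with one absolute constant: for every probability space, every
measure preserving transformation, every increasing sequence and every `f` in `L²`.
-/

open MeasureTheory Finset
open scoped ENNReal

namespace Pool.Agent.Results.MP_d5c55f_an.SquareFunction

/-- the divisor-weighted average `A_n f = (1/W_n) ∑_{k=1}^n d(k) f ∘ τ^k` -/
noncomputable def avg {X : Type*} (τ : X → X) (n : ℕ) (f : X → ℂ) (x : X) : ℂ :=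
  (∑ k ∈ Icc 1 n, ((Nat.divisors k).card : ℂ) * f (τ^[k] x)) /
    (∑ k ∈ Icc 1 n, ((Nat.divisors k).card : ℂ))

/-- coefficients of the average -/
noncomputable def cf (m k : ℕ) : ℂ :=
  if k ≤ m then ((Nat.divisors k).card : ℂ) / (Q187.Div.W m : ℂ) else 0

lemma sum_range_eq {M : Type*} [AddCommMonoid M] (m : ℕ) (a : ℕ → M) (h0 : a 0 = 0) :
    ∑ k ∈ range (m + 1), a k = ∑ k ∈ Icc 1 m, a k := by
  symm
  refine Finset.sum_subset ?_ ?_
  · intro k hk
    rw [Finset.mem_Icc] at hk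
    exact Finset.mem_range.mpr (by omega)
  · intro k hk hk2
    rw [Finset.mem_range] at hk
    rw [Finset.mem_Icc] at hk2
    have : k = 0 := by omega
    rw [this, h0]

lemma sum_cf (m N : ℕ) (h : m ≤ N) (u : ℕ → ℂ) :
    ∑ k ∈ range (N + 1), cf m k * u k
      = (∑ k ∈ range (m + 1), ((Nat.divisors k).card : ℂ) * u k) / (Q187.Div.W m : ℂ) := by
  rw [Finset.sum_div]
  symm
  have h1 : ∑ k ∈ range (m + 1), ((Nat.divisors k).card : ℂ) * u k / (Q187.Div.W m : ℂ)
      = ∑ k ∈ range (m + 1), cf m k * u k := by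
    refine Finset.sum_congr rfl fun k hk => ?_
    rw [Finset.mem_range] at hk
    unfold cf
    rw [if_pos (by omega)]
    ring
  rw [h1]
  refine Finset.sum_subset (Finset.range_mono (by omega)) ?_
  intro k _ hk2
  rw [Finset.mem_range] at hk2
  unfold cf
  rw [if_neg (by omega), zero_mul]

lemma avg_eq {X : Type*} (τ : X → X) (m N : ℕ) (h : m ≤ N) (f : X → ℂ) (x : X) :
    avg τ m f x = ∑ k ∈ range (N + 1), cf m k * f (τ^[k] x) := by
  rw [sum_cf m N h (fun k => f (τ^[k] x))]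
  unfold avg Q187.Div.W
  rw [sum_range_eq m (fun k => ((Nat.divisors k).card : ℂ) * f (τ^[k] x)) (by simp),
    sum_range_eq m (fun k => ((Nat.divisors k).card : ℝ)) (by simp)]
  push_cast
  rfl

/-- the square of the `L²` norm -/
lemma enorm_sq {X : Type*} [MeasurableSpace X] {μ : Measure X} {f : X → ℂ} (hf : MemLp f 2 μ) :
    ∫⁻ x, ‖f x‖ₑ ^ 2 ∂μ = ENNReal.ofReal (‖hf.toLp f‖ ^ 2) := by
  have h1 := eLpNorm_nnreal_pow_eq_lintegral (f := f) (μ := μ) (p := 2) (by norm_num)
  have h2 : ∫⁻ x, ‖f x‖ₑ ^ 2 ∂μ = eLpNorm f 2 μ ^ 2 := by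
    have : ∀ y : ℝ≥0∞, y ^ ((2 : NNReal) : ℝ) = y ^ 2 := by
      intro y
      rw [show ((2 : NNReal) : ℝ) = ((2 : ℕ) : ℝ) by norm_num, ENNReal.rpow_natCast]
    simp only [this] at h1
    exact h1.symm
  rw [h2, Lp.norm_toLp, ENNReal.ofReal_pow ENNReal.toReal_nonneg, ENNReal.ofReal_toReal hf.2.ne]

theorem result.{u} : ∃ C : ℝ, 0 < C ∧ ∀ (X : Type u) [MeasurableSpace X] (μ : Measure X)
    [IsProbabilityMeasure μ] (τ : X → X), MeasurePreserving τ μ μ →
    ∀ n : ℕ → ℕ, StrictMono n → 1 ≤ n 0 → ∀ f : X → ℂ, MemLp f 2 μ →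
      ∫⁻ x, ∑' j : ℕ, ‖avg τ (n (j + 1)) f x - avg τ (n j) f x‖ₑ ^ 2 ∂μ
        ≤ ENNReal.ofReal C * ∫⁻ x, ‖f x‖ₑ ^ 2 ∂μ := by
  refine ⟨Q187.Div.CQ, Q187.Div.CQ_pos, ?_⟩
  intro X _ μ _ τ hτ n hn h0 f hf
  set U : Lp ℂ 2 μ →ₗᵢ[ℂ] Lp ℂ 2 μ := Lp.compMeasurePreservingₗᵢ ℂ τ hτ with hU
  have hτk : ∀ k : ℕ, MeasurePreserving (τ^[k]) μ μ := fun k => hτ.iterate k
  have hfk : ∀ k : ℕ, MemLp (f ∘ τ^[k]) 2 μ := fun k => hf.comp_measurePreserving (hτk k)
  -- iterates of the Koopman operator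
  have hUk : ∀ k : ℕ, (U^[k]) (hf.toLp f) = (hfk k).toLp (f ∘ τ^[k]) := by
    intro k
    induction k with
    | zero => rfl
    | succ k ih =>
      rw [Function.iterate_succ_apply', ih]
      show Lp.compMeasurePreserving τ hτ ((hfk k).toLp (f ∘ τ^[k])) = _
      rw [Lp.toLp_compMeasurePreserving]
      rfl
  have hmem : ∀ j : ℕ, MemLp (fun x => avg τ (n (j + 1)) f x - avg τ (n j) f x) 2 μ := by
    intro j
    have h1 : ∀ m : ℕ, MemLp (fun x => avg τ m f x) 2 μ := by
      intro m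
      have : (fun x => avg τ m f x) = fun x => ∑ k ∈ range (m + 1), cf m k * f (τ^[k] x) := by
        ext x; exact avg_eq τ m m le_rfl f x
      rw [this]
      exact memLp_finsetSum _ fun k _ => (hfk k).const_mul (cf m k)
    exact (h1 _).sub (h1 _)
  -- finite sums
  have hfin : ∀ J : ℕ, ∑ j ∈ range J,
      ∫⁻ x, ‖avg τ (n (j + 1)) f x - avg τ (n j) f x‖ₑ ^ 2 ∂μ
        ≤ ENNReal.ofReal Q187.Div.CQ * ∫⁻ x, ‖f x‖ₑ ^ 2 ∂μ := by
    intro J
    set N := n J with hN
    set c : ℕ → ℕ → ℂ := fun j k => cf (n (j + 1)) k - cf (n j) k with hc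
    have hle : ∀ j, j ∈ range J → n (j + 1) ≤ N ∧ n j ≤ N := by
      intro j hj
      rw [Finset.mem_range] at hj
      exact ⟨hn.monotone (by omega), hn.monotone (by omega)⟩
    have hC : ∀ θ : ℝ, ∑ j ∈ range J,
        ‖∑ k ∈ range (N + 1), c j k * Q187.Div.e (k * θ)‖ ^ 2 ≤ Q187.Div.CQ := by
      intro θ
      refine le_trans (le_of_eq ?_) (Q187.Div.quadratic_variation θ n hn.monotone h0 J)
      refine Finset.sum_congr rfl fun j hj => ?_
      obtain ⟨h1, h2⟩ := hle j hj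
      have h3 : ∑ k ∈ range (N + 1), c j k * Q187.Div.e (k * θ)
          = Q187.Div.V (n (j + 1)) θ - Q187.Div.V (n j) θ := by
        simp only [hc, sub_mul, Finset.sum_sub_distrib]
        rw [sum_cf _ N h1 (fun k => Q187.Div.e (k * θ)), sum_cf _ N h2 (fun k => Q187.Div.e (k * θ))]
        rfl
      rw [h3]
    have htr := Q187.Div.transfer U (range J) N c Q187.Div.CQ hC (hf.toLp f)
    have hterm : ∀ j ∈ range J, ∫⁻ x, ‖avg τ (n (j + 1)) f x - avg τ (n j) f x‖ₑ ^ 2 ∂μ
        = ENNReal.ofReal (‖∑ k ∈ range (N + 1), c j k • (U^[k]) (hf.toLp f)‖ ^ 2) := by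
      intro j hj
      obtain ⟨h1, h2⟩ := hle j hj
      rw [enorm_sq (hmem j)]
      congr 3
      have h4 : ∀ s : Finset ℕ, ∑ k ∈ s, c j k • (U^[k]) (hf.toLp f)
          = (memLp_finsetSum s fun k _ => (hfk k).const_smul (c j k)).toLp
            (fun x => ∑ k ∈ s, (c j k • (f ∘ τ^[k])) x) := by
        intro s
        classical
        induction s using Finset.induction_on with
        | empty =>
          simp only [Finset.sum_empty]
          exact (MemLp.toLp_zero _).symm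
        | insert a s ha ih =>
          rw [Finset.sum_insert ha, ih, hUk]
          rw [← MemLp.toLp_const_smul, ← MemLp.toLp_add]
          apply MemLp.toLp_congr
          filter_upwards with x
          simp only [Pi.add_apply]
          rw [Finset.sum_insert ha]
      rw [h4]
      apply MemLp.toLp_congr
      filter_upwards with x
      rw [avg_eq τ _ N h1 f x, avg_eq τ _ N h2 f x, ← Finset.sum_sub_distrib]
      refine Finset.sum_congr rfl fun k _ => ?_
      simp only [hc, Pi.smul_apply, Function.comp_apply, smul_eq_mul]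
      ring
    rw [Finset.sum_congr rfl hterm, ← ENNReal.ofReal_sum_of_nonneg (fun _ _ => sq_nonneg _),
      enorm_sq hf, ← ENNReal.ofReal_mul Q187.Div.CQ_pos.le]
    exact ENNReal.ofReal_le_ofReal htr
  rw [lintegral_tsum]
  · exact ENNReal.tsum_le_of_sum_range_le hfin
  · intro j
    exact ((hmem j).1.aemeasurable.enorm).pow_const 2

end Pool.Agent.Results.MP_d5c55f_an.SquareFunction
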